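import Mathlib

/-!
# FAT colorings with a prescribed fairness parameter

For every `k ≥ 2` and every rational `α` with `0 < α ≤ 1 / (k - 1)` there is a connected graph with
FAT chromatic number exactly `k` and a FAT `k`-coloring with parameter `α`.
-/

set_option autoImplicit false

namespace Pool.Agent.Results.MP_2d49c6_co.PrescribedParameter

/-- The degree of `v`. -/
noncomputable def deg {V : Type} (G : SimpleGraph V) (v : V) : ℕ := {w | G.Adj v w}.ncard

/-- `e(v, V_i)`: the number of neighbours of `v` of colour `i`. -/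
noncomputable def nbrs {V : Type} (G : SimpleGraph V) {k : ℕ} (c : V → Fin k) (v : V)
    (i : Fin k) : ℕ := {w | G.Adj v w ∧ c w = i}.ncard

/-- `c` is a FAT `k`-coloring of `G` with parameter `α`: all `k` classes are nonempty, `0 ≤ α ≤ 1`, and
`e(v, V_i) = α deg v` if `v ∉ V_i`, `e(v, V_i) = (1 - (k - 1) α) deg v` if `v ∈ V_i`. -/
structure IsFAT {V : Type} (G : SimpleGraph V) (k : ℕ) (α : ℝ) (c : V → Fin k) : Prop where
  surj : Function.Surjective c
  nonneg : 0 ≤ α
  le_one : α ≤ 1
  other : ∀ v i, c v ≠ i → (nbrs G c v i : ℝ) = α * deg G v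
  own : ∀ v, (nbrs G c v (c v) : ℝ) = (1 - ((k : ℝ) - 1) * α) * deg G v

/-- `k` is the FAT chromatic number of `G`: the largest `k` such that `G` has a FAT `k`-coloring. -/
def IsChiFAT {V : Type} (G : SimpleGraph V) (k : ℕ) : Prop :=
  IsGreatest {m : ℕ | ∃ (a : ℝ) (c : V → Fin m), IsFAT G m a c} k

/-! ### Sums over neighbours -/

section gen

variable {V : Type} [Fintype V]

open Classical in
/-- The sum of `f` over the neighbours of `v`. -/
noncomputable def W (G : SimpleGraph V) (f : V → ℝ) (v : V) : ℝ := ∑ w, if G.Adj v w then f w else 0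

lemma deg_eq (G : SimpleGraph V) (v : V) : (deg G v : ℝ) = W G (fun _ => 1) v := by
  classical
  unfold deg W
  rw [Set.ncard_eq_toFinset_card', Finset.sum_boole]
  congr 2
  ext w
  simp

open Classical in
/-- The indicator function of a colour class. -/
noncomputable def ind {m : ℕ} (c : V → Fin m) (i : Fin m) (w : V) : ℝ := if c w = i then 1 else 0

lemma nbrs_eq (G : SimpleGraph V) {m : ℕ} (c : V → Fin m) (v : V) (i : Fin m) :
    (nbrs G c v i : ℝ) = W G (ind c i) v := by
  classical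
  unfold nbrs W ind
  rw [Set.ncard_eq_toFinset_card']
  have : ∀ w, (if G.Adj v w then (if c w = i then (1 : ℝ) else 0) else 0) =
      if (G.Adj v w ∧ c w = i) then 1 else 0 := by
    intro w
    by_cases h1 : G.Adj v w <;> by_cases h2 : c w = i <;> simp [h1, h2]
  rw [Finset.sum_congr rfl (fun w _ => this w), Finset.sum_boole]
  congr 2
  ext w
  simp

omit [Fintype V] in
lemma exists_of_nbrs_pos {G : SimpleGraph V} {m : ℕ} {c : V → Fin m} {v : V} {i : Fin m}
    (h : 0 < (nbrs G c v i : ℝ)) : ∃ w, G.Adj v w ∧ c w = i := by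
  have h1 : (nbrs G c v i) ≠ 0 := by
    intro h0
    rw [h0] at h
    simp at h
  obtain ⟨w, hw⟩ := Set.nonempty_of_ncard_ne_zero h1
  exact ⟨w, hw⟩

/-- The parameter of a FAT coloring with at least two classes of a connected graph is positive. -/
lemma pos_of_conn {G : SimpleGraph V} (hG : G.Connected) {m : ℕ} (hm : 2 ≤ m) {α : ℝ}
    {c : V → Fin m} (h : IsFAT G m α c) : 0 < α := by
  rcases h.nonneg.lt_or_eq with h1 | h1
  · exact h1
  exfalso
  have key : ∀ v w, G.Adj v w → c v = c w := by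
    intro v w hvw
    by_contra hne
    have h2 := h.other v (c w) hne
    rw [← h1, zero_mul] at h2
    have h3 : (nbrs G c v (c w)) = 0 := by exact_mod_cast h2
    unfold nbrs at h3
    rw [Set.ncard_eq_zero] at h3
    have h4 : w ∈ ({x | G.Adj v x ∧ c x = c w} : Set V) := ⟨hvw, rfl⟩
    rw [h3] at h4
    exact h4
  have key2 : ∀ v w, c v = c w := by
    intro v w
    obtain ⟨p⟩ := hG.preconnected v w
    induction p with
    | nil => rfl
    | cons hadj _ ih => exact (key _ _ hadj).trans ih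
  obtain ⟨v, hv⟩ := h.surj ⟨0, by omega⟩
  obtain ⟨w, hw⟩ := h.surj ⟨1, by omega⟩
  have := key2 v w
  rw [hv, hw] at this
  simp at this

end gen

/-! ### Complete graphs -/

lemma complete (k : ℕ) (hk : 2 ≤ k) : (⊤ : SimpleGraph (Fin k)).Connected ∧
    IsChiFAT (⊤ : SimpleGraph (Fin k)) k ∧ IsFAT (⊤ : SimpleGraph (Fin k)) k (1 / ((k : ℝ) - 1)) id := by
  classical
  have hk1 : (0 : ℝ) < (k : ℝ) - 1 := by
    have : (2 : ℝ) ≤ k := by exact_mod_cast hk
    linarith
  have hne : Nonempty (Fin k) := ⟨⟨0, by omega⟩⟩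
  have hdeg : ∀ v, (deg (⊤ : SimpleGraph (Fin k)) v : ℝ) = (k : ℝ) - 1 := by
    intro v
    rw [deg_eq]
    unfold W
    simp only [SimpleGraph.top_adj]
    rw [Finset.sum_boole]
    have : (Finset.univ.filter (fun x : Fin k => v ≠ x)) = Finset.univ.erase v := by
      ext x
      simp [eq_comm]
    rw [this, Finset.card_erase_of_mem (Finset.mem_univ _), Finset.card_univ, Fintype.card_fin]
    rw [Nat.cast_sub (by omega)]
    simp
  have hfat : IsFAT (⊤ : SimpleGraph (Fin k)) k (1 / ((k : ℝ) - 1)) id := by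
    refine ⟨fun x => ⟨x, rfl⟩, by positivity, ?_, ?_, ?_⟩
    · rw [div_le_one hk1]
      have : (2 : ℝ) ≤ k := by exact_mod_cast hk
      linarith
    · intro v i hvi
      rw [hdeg, one_div, inv_mul_cancel₀ hk1.ne']
      unfold nbrs
      have : ({w | (⊤ : SimpleGraph (Fin k)).Adj v w ∧ id w = i} : Set (Fin k)) = {i} := by
        ext w
        simp only [SimpleGraph.top_adj, id, Set.mem_ofPred_eq, Set.mem_singleton_iff]
        constructor
        · exact fun h => h.2
        · rintro rfl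
          exact ⟨hvi, rfl⟩
      rw [this, Set.ncard_singleton]
      simp
    · intro v
      have e1 : (1 - ((k : ℝ) - 1) * (1 / ((k : ℝ) - 1))) = 0 := by
        field_simp
        ring
      rw [e1, zero_mul]
      unfold nbrs
      have : ({w | (⊤ : SimpleGraph (Fin k)).Adj v w ∧ id w = id v} : Set (Fin k)) = ∅ := by
        ext w
        simp only [SimpleGraph.top_adj, id, Set.mem_ofPred_eq, Set.mem_empty_iff_false, iff_false]
        rintro ⟨h1, h2⟩
        exact h1 h2.symm
      rw [this, Set.ncard_empty]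
      simp
  refine ⟨SimpleGraph.connected_top, ⟨⟨_, _, hfat⟩, ?_⟩, hfat⟩
  rintro m ⟨a, c, hc⟩
  have := Fintype.card_le_of_surjective c hc.surj
  simpa using this

/-! ### Complete bipartite graphs -/

/-- The complete bipartite graph on two copies of `Fin k`. -/
def Kb (k : ℕ) : SimpleGraph (Fin k × Bool) where
  Adj v w := v.2 ≠ w.2
  symm := ⟨fun _ _ h => h.symm⟩
  loopless := ⟨fun _ h => h rfl⟩

lemma W_Kb (k : ℕ) (f : Fin k × Bool → ℝ) (v : Fin k × Bool) :
    W (Kb k) f v = ∑ j, f (j, !v.2) := by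
  classical
  unfold W
  rw [Fintype.sum_prod_type]
  refine Finset.sum_congr rfl fun j _ => ?_
  rcases v with ⟨i, b⟩
  cases b <;> simp [Kb]

lemma Kb_conn (k : ℕ) (hk : 2 ≤ k) : (Kb k).Connected := by
  have hne : Nonempty (Fin k × Bool) := ⟨(⟨0, by omega⟩, true)⟩
  refine ⟨fun v w => ?_⟩
  by_cases h : v.2 = w.2
  · have h1 : (Kb k).Adj v (v.1, !v.2) := by
      show v.2 ≠ !v.2
      simp
    have h2 : (Kb k).Adj (v.1, !v.2) w := by
      show (!v.2) ≠ w.2
      rw [h]
      simp
    exact h1.reachable.trans h2.reachable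
  · exact SimpleGraph.Adj.reachable h

lemma bipartite (k : ℕ) (hk : 2 ≤ k) : (Kb k).Connected ∧
    IsChiFAT (Kb k) k ∧ IsFAT (Kb k) k (1 / (k : ℝ)) Prod.fst := by
  classical
  have hk0 : (0 : ℝ) < (k : ℝ) := by
    have : (2 : ℝ) ≤ k := by exact_mod_cast hk
    linarith
  have hdeg : ∀ v, (deg (Kb k) v : ℝ) = (k : ℝ) := by
    intro v
    rw [deg_eq, W_Kb]
    simp
  have hfat : IsFAT (Kb k) k (1 / (k : ℝ)) Prod.fst := by
    have hn : ∀ v i, (nbrs (Kb k) Prod.fst v i : ℝ) = 1 := by
      intro v i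
      rw [nbrs_eq, W_Kb]
      unfold ind
      simp
    refine ⟨fun x => ⟨(x, true), rfl⟩, by positivity, ?_, ?_, ?_⟩
    · rw [div_le_one hk0]
      have : (2 : ℝ) ≤ k := by exact_mod_cast hk
      linarith
    · intro v i _
      rw [hdeg, hn]
      field_simp
    · intro v
      rw [hdeg, hn]
      field_simp
      ring
  refine ⟨Kb_conn k hk, ⟨⟨_, _, hfat⟩, ?_⟩, hfat⟩
  rintro m ⟨a, c, hc⟩
  by_contra hlt
  push Not at hlt
  have hpos := pos_of_conn (Kb_conn k hk) (by omega : 2 ≤ m) hc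
  -- every other class occurs among the neighbours
  have hex : ∀ v γ, c v ≠ γ → ∃ j, c (j, !v.2) = γ := by
    intro v γ hγ
    have h1 := hc.other v γ hγ
    rw [hdeg] at h1
    obtain ⟨w, hw1, hw2⟩ := exists_of_nbrs_pos (G := Kb k) (c := c) (v := v) (i := γ)
      (by rw [h1]; positivity)
    refine ⟨w.1, ?_⟩
    have h3 : (!v.2) = w.2 := by
      have h4 : v.2 ≠ w.2 := hw1
      rcases hv : v.2 <;> rcases hw : w.2 <;> simp_all
    rw [h3]
    exact hw2
  -- the colours on the other side are all distinct, and different from the colour of `v`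
  have key : ∀ v : Fin k × Bool, Function.Injective (fun j => c (j, !v.2)) ∧
      ∀ j, c (j, !v.2) ≠ c v := by
    intro v
    have h1 : (Finset.univ.erase (c v)) ⊆ Finset.univ.image (fun j => c (j, !v.2)) := by
      intro γ hγ
      rw [Finset.mem_erase] at hγ
      obtain ⟨j, hj⟩ := hex v γ (Ne.symm hγ.1)
      exact Finset.mem_image.mpr ⟨j, Finset.mem_univ _, hj⟩
    have h2 := Finset.card_le_card h1
    rw [Finset.card_erase_of_mem (Finset.mem_univ _), Finset.card_univ, Fintype.card_fin] at h2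
    have h3 : (Finset.univ.image (fun j => c (j, !v.2))).card ≤ k := by
      refine Finset.card_image_le.trans ?_
      simp
    have h4 : (Finset.univ.image (fun j => c (j, !v.2))).card = (Finset.univ : Finset (Fin k)).card := by
      simp only [Finset.card_univ, Fintype.card_fin]
      omega
    have h5 := Finset.card_image_iff.mp h4
    refine ⟨fun x y hxy => h5 (Finset.mem_coe.mpr (Finset.mem_univ _))
      (Finset.mem_coe.mpr (Finset.mem_univ _)) hxy, fun j hj => ?_⟩
    have h6 : Finset.univ.image (fun j => c (j, !v.2)) = Finset.univ.erase (c v) := by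
      symm
      apply Finset.eq_of_subset_of_card_le h1
      rw [Finset.card_erase_of_mem (Finset.mem_univ _), Finset.card_univ, Fintype.card_fin]
      omega
    have h7 : c (j, !v.2) ∈ Finset.univ.erase (c v) := by
      rw [← h6]
      exact Finset.mem_image.mpr ⟨j, Finset.mem_univ _, rfl⟩
    rw [hj] at h7
    simp at h7
  -- two vertices on the same side
  set z : Fin k := ⟨0, by omega⟩
  set o : Fin k := ⟨1, by omega⟩
  have hzo : z ≠ o := by
    intro h
    have := congrArg Fin.val h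
    simp [z, o] at this
  have h1 : c (z, true) ≠ c (o, true) := by
    intro h
    have h2 := (key (z, false)).1
    simp only [Bool.not_false] at h2
    exact hzo (h2 h)
  obtain ⟨j, hj⟩ := hex (z, true) (c (o, true)) h1
  exact (key (o, true)).2 j hj

/-! ### The general graph -/

section general

variable (k p r : ℕ)

/-- The types of the vertices: `A`, `B`, `C`, `D`, `E`. -/
abbrev T : Type := Fin (2 * p ^ 4 * r ^ 4) ⊕ Fin (p ^ 2 * r) ⊕ Fin (p * r ^ 2) ⊕
  (Fin (2 * r ^ 5) × Fin (p ^ 3)) ⊕ (Fin (p ^ 5) × Bool × Fin (r ^ 3))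

variable {k p r}

abbrev tA (x : Fin (2 * p ^ 4 * r ^ 4)) : T p r := Sum.inl x
abbrev tB (x : Fin (p ^ 2 * r)) : T p r := Sum.inr (Sum.inl x)
abbrev tC (x : Fin (p * r ^ 2)) : T p r := Sum.inr (Sum.inr (Sum.inl x))
abbrev tD (x : Fin (2 * r ^ 5) × Fin (p ^ 3)) : T p r := Sum.inr (Sum.inr (Sum.inr (Sum.inl x)))
abbrev tE (x : Fin (p ^ 5) × Bool × Fin (r ^ 3)) : T p r :=
  Sum.inr (Sum.inr (Sum.inr (Sum.inr x)))

/-- The adjacency between different classes. -/
def H1 : T p r → T p r → Prop
  | .inl _, .inr (.inl _) => True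
  | .inr (.inl _), .inl _ => True
  | .inr (.inr (.inl _)), .inr (.inr (.inr (.inr _))) => True
  | .inr (.inr (.inr (.inr _))), .inr (.inr (.inl _)) => True
  | .inr (.inr (.inr (.inl x))), .inr (.inr (.inr (.inl y))) => x.1 = y.1
  | _, _ => False

/-- The adjacency inside a class. -/
def H2 : T p r → T p r → Prop
  | .inl _, .inr (.inr (.inl _)) => True
  | .inr (.inr (.inl _)), .inl _ => True
  | .inr (.inl _), .inr (.inr (.inr (.inl _))) => True
  | .inr (.inr (.inr (.inl _))), .inr (.inl _) => True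
  | .inr (.inr (.inr (.inr x))), .inr (.inr (.inr (.inr y))) => x.1 = y.1 ∧ x.2.1 ≠ y.2.1
  | _, _ => False

lemma H1_symm (x y : T p r) (h : H1 x y) : H1 y x := by
  rcases x with x | x | x | x | x <;> rcases y with y | y | y | y | y <;>
    simp_all [H1]

lemma H2_symm (x y : T p r) (h : H2 x y) : H2 y x := by
  rcases x with x | x | x | x | x <;> rcases y with y | y | y | y | y <;>
    simp_all [H2]
  exact fun h' => h.2 h'.symm

lemma H2_irrefl (x : T p r) (h : H2 x x) : False := by
  rcases x with x | x | x | x | x <;> simp [H2] at h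

variable (k p r) in
/-- The graph. -/
def Gr : SimpleGraph (Fin k × T p r) where
  Adj v w := (v.1 ≠ w.1 ∧ H1 v.2 w.2) ∨ (v.1 = w.1 ∧ H2 v.2 w.2)
  symm := ⟨fun _ _ h => by
    rcases h with ⟨h1, h2⟩ | ⟨h1, h2⟩
    · exact Or.inl ⟨h1.symm, H1_symm _ _ h2⟩
    · exact Or.inr ⟨h1.symm, H2_symm _ _ h2⟩⟩
  loopless := ⟨fun _ h => by
    rcases h with ⟨h1, _⟩ | ⟨_, h2⟩
    · exact h1 rfl
    · exact H2_irrefl _ h2⟩

open Classical in
lemma W_Gr (f : Fin k × T p r → ℝ) (i : Fin k) (x : T p r) :
    W (Gr k p r) f (i, x) = (∑ j, ∑ y, if H1 x y then f (j, y) else 0) -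
      (∑ y, if H1 x y then f (i, y) else 0) + ∑ y, if H2 x y then f (i, y) else 0 := by
  unfold W
  rw [Fintype.sum_prod_type]
  have h1 : ∀ j, (∑ y, if (Gr k p r).Adj (i, x) (j, y) then f (j, y) else 0) =
      (∑ y, if H1 x y then f (j, y) else 0) -
      (if i = j then (∑ y, if H1 x y then f (j, y) else 0) else 0) +
      (if i = j then (∑ y, if H2 x y then f (j, y) else 0) else 0) := by
    intro j
    by_cases hij : i = j
    · subst hij
      simp [Gr]
    · simp [Gr, hij]
  rw [Finset.sum_congr rfl (fun j _ => h1 j), Finset.sum_add_distrib, Finset.sum_sub_distrib]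
  simp

variable (f : Fin k × T p r → ℝ) (i : Fin k)

lemma W_A (x : Fin (2 * p ^ 4 * r ^ 4)) : W (Gr k p r) f (i, tA x) =
    (∑ j, ∑ y, f (j, tB y)) - (∑ y, f (i, tB y)) + ∑ y, f (i, tC y) := by
  classical
  rw [W_Gr]
  simp [H1, H2, Fintype.sum_sum_type]

lemma W_B (x : Fin (p ^ 2 * r)) : W (Gr k p r) f (i, tB x) =
    (∑ j, ∑ y, f (j, tA y)) - (∑ y, f (i, tA y)) + ∑ y, f (i, tD y) := by
  classical
  rw [W_Gr]
  simp [H1, H2, Fintype.sum_sum_type]

lemma W_C (x : Fin (p * r ^ 2)) : W (Gr k p r) f (i, tC x) =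
    (∑ j, ∑ y, f (j, tE y)) - (∑ y, f (i, tE y)) + ∑ y, f (i, tA y) := by
  classical
  rw [W_Gr]
  simp [H1, H2, Fintype.sum_sum_type]

lemma sum_fst {α β : Type} [Fintype α] [Fintype β] [DecidableEq α] (l : α) (g : α → β → ℝ) :
    (∑ x, ∑ y, if l = x then g x y else 0) = ∑ y, g l y := by
  rw [Finset.sum_comm]
  simp

lemma W_D (l : Fin (2 * r ^ 5)) (x : Fin (p ^ 3)) : W (Gr k p r) f (i, tD (l, x)) =
    (∑ j, ∑ y, f (j, tD (l, y))) - (∑ y, f (i, tD (l, y))) + ∑ y, f (i, tB y) := by
  classical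
  have h1 : ∀ j, (∑ y : T p r, if H1 (tD (l, x)) y then f (j, y) else 0) = ∑ y, f (j, tD (l, y)) := by
    intro j
    rw [← sum_fst l (fun a b => f (j, tD (a, b)))]
    simp only [H1, Fintype.sum_sum_type, Fintype.sum_prod_type, ↓reduceIte, Finset.sum_const_zero,
      zero_add, add_zero]
    refine Finset.sum_congr rfl fun a _ => Finset.sum_congr rfl fun b _ => ?_
    by_cases h : l = a <;> simp [h]
  have h2 : (∑ y : T p r, if H2 (tD (l, x)) y then f (i, y) else 0) = ∑ y, f (i, tB y) := by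
    simp only [H2, Fintype.sum_sum_type, ↓reduceIte, Finset.sum_const_zero,
      zero_add, add_zero]
  rw [W_Gr, Finset.sum_congr rfl (fun j _ => h1 j), h1, h2]

lemma W_E (l : Fin (p ^ 5)) (b : Bool) (x : Fin (r ^ 3)) : W (Gr k p r) f (i, tE (l, b, x)) =
    (∑ j, ∑ y, f (j, tC y)) - (∑ y, f (i, tC y)) + ∑ y, f (i, tE (l, !b, y)) := by
  classical
  have h1 : ∀ j, (∑ y : T p r, if H1 (tE (l, b, x)) y then f (j, y) else 0) = ∑ y, f (j, tC y) := by
    intro j
    simp only [H1, Fintype.sum_sum_type, ↓reduceIte, Finset.sum_const_zero, zero_add, add_zero]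
  have h2 : (∑ y : T p r, if H2 (tE (l, b, x)) y then f (i, y) else 0) =
      ∑ y, f (i, tE (l, !b, y)) := by
    have h3 : (∑ y : T p r, if H2 (tE (l, b, x)) y then f (i, y) else 0) =
        ∑ a : Fin (p ^ 5), ∑ y : Bool × Fin (r ^ 3), if l = a then
          (if b = y.1 then 0 else f (i, tE (a, y))) else 0 := by
      simp only [H2, Fintype.sum_sum_type, ↓reduceIte, Finset.sum_const_zero, zero_add]
      rw [Fintype.sum_prod_type]
      refine Finset.sum_congr rfl fun a _ => Finset.sum_congr rfl fun y _ => ?_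
      by_cases h : l = a <;> by_cases h' : b = y.1 <;> simp [h, h']
    have h4 := sum_fst l (fun a (y : Bool × Fin (r ^ 3)) => if b = y.1 then (0 : ℝ) else f (i, tE (a, y)))
    rw [h3]
    refine h4.trans ?_
    rw [Fintype.sum_prod_type]
    cases b <;> simp
  rw [W_Gr, Finset.sum_congr rfl (fun j _ => h1 j), h1, h2]

/-! ### Connectedness -/

lemma Gr_conn (hk : 2 ≤ k) (hp : 0 < p) (hr : 0 < r) : (Gr k p r).Connected := by
  have a0 : Fin (2 * p ^ 4 * r ^ 4) := ⟨0, by positivity⟩
  have b0 : Fin (p ^ 2 * r) := ⟨0, by positivity⟩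
  have c0 : Fin (p * r ^ 2) := ⟨0, by positivity⟩
  have d0 : Fin (2 * r ^ 5) × Fin (p ^ 3) := (⟨0, by positivity⟩, ⟨0, by positivity⟩)
  have hother : ∀ i : Fin k, ∃ j : Fin k, i ≠ j := by
    intro i
    by_cases h : i.val = 0
    · refine ⟨⟨1, by omega⟩, fun h' => ?_⟩
      have := congrArg Fin.val h'
      simp only at this
      omega
    · refine ⟨⟨0, by omega⟩, fun h' => ?_⟩
      have := congrArg Fin.val h'
      simp only at this
      omega
  set z : Fin k := ⟨0, by omega⟩ with hz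
  have hBD : ∀ i b d, (Gr k p r).Reachable (i, tB b) (i, tD d) := fun i b d =>
    SimpleGraph.Adj.reachable (Or.inr ⟨rfl, trivial⟩)
  have hDD : ∀ (i j : Fin k) d, (Gr k p r).Reachable (i, tD d) (j, tD d) := by
    intro i j d
    by_cases hij : i = j
    · rw [hij]
    · exact SimpleGraph.Adj.reachable (Or.inl ⟨hij, rfl⟩)
  have hB : ∀ i b, (Gr k p r).Reachable (z, tB b0) (i, tB b) := fun i b =>
    ((hBD z b0 d0).trans (hDD z i d0)).trans (hBD i b d0).symm
  have hA : ∀ i a, (Gr k p r).Reachable (z, tB b0) (i, tA a) := by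
    intro i a
    obtain ⟨j, hj⟩ := hother i
    exact (hB j b0).trans (SimpleGraph.Adj.reachable (Or.inl ⟨hj.symm, trivial⟩))
  have hC : ∀ i c, (Gr k p r).Reachable (z, tB b0) (i, tC c) := by
    intro i c
    exact (hA i a0).trans (SimpleGraph.Adj.reachable (Or.inr ⟨rfl, trivial⟩))
  have hE : ∀ i e, (Gr k p r).Reachable (z, tB b0) (i, tE e) := by
    intro i e
    obtain ⟨j, hj⟩ := hother i
    exact (hC j c0).trans (SimpleGraph.Adj.reachable (Or.inl ⟨hj.symm, trivial⟩))
  have hall : ∀ v, (Gr k p r).Reachable (z, tB b0) v := by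
    rintro ⟨i, x | x | x | x | x⟩
    · exact hA i x
    · exact hB i x
    · exact hC i x
    · exact (hB i b0).trans (hBD i b0 x)
    · exact hE i x
  have hne : Nonempty (Fin k × T p r) := ⟨(z, tB b0)⟩
  exact ⟨fun v w => (hall v).symm.trans (hall w)⟩

/-! ### The coloring with parameter `p / q` -/

variable (k p r) in
/-- The denominator. -/
noncomputable def qq : ℝ := r + ((k : ℝ) - 1) * p

lemma deg_A (i : Fin k) (x) : (deg (Gr k p r) (i, tA x) : ℝ) = p * r * qq k p r := by
  rw [deg_eq, W_A]; simp; unfold qq; ring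
lemma deg_B (i : Fin k) (x) : (deg (Gr k p r) (i, tB x) : ℝ) = 2 * p ^ 3 * r ^ 4 * qq k p r := by
  rw [deg_eq, W_B]; simp; unfold qq; ring
lemma deg_C (i : Fin k) (x) : (deg (Gr k p r) (i, tC x) : ℝ) = 2 * p ^ 4 * r ^ 3 * qq k p r := by
  rw [deg_eq, W_C]; simp; unfold qq; ring
lemma deg_D (i : Fin k) (x) : (deg (Gr k p r) (i, tD x) : ℝ) = p ^ 2 * qq k p r := by
  rw [deg_eq, W_D]; simp; unfold qq; ring
lemma deg_E (i : Fin k) (x) : (deg (Gr k p r) (i, tE x) : ℝ) = r ^ 2 * qq k p r := by
  rcases x with ⟨x1, x2, x3⟩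
  rw [deg_eq, W_E]; simp; unfold qq; ring

lemma fat_Gr (hk : 2 ≤ k) (hp : 0 < p) (hr : 0 < r) :
    IsFAT (Gr k p r) k ((p : ℝ) / qq k p r) Prod.fst := by
  classical
  have hk1 : (0 : ℝ) < (k : ℝ) - 1 := by
    have : (2 : ℝ) ≤ k := by exact_mod_cast hk
    linarith
  have hk2 : (1 : ℝ) ≤ (k : ℝ) - 1 := by
    have : (2 : ℝ) ≤ k := by exact_mod_cast hk
    linarith
  have hp0 : (0 : ℝ) < p := by exact_mod_cast hp
  have hr0 : (0 : ℝ) < r := by exact_mod_cast hr
  have hq : 0 < qq k p r := by unfold qq; positivity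
  have b0 : Fin (p ^ 2 * r) := ⟨0, by positivity⟩
  have hind : ∀ (i j : Fin k) (x : T p r), ind (Prod.fst : Fin k × T p r → Fin k) i (j, x) =
      if j = i then 1 else 0 := fun i j x => rfl
  have hother : ∀ (i : Fin k) (x : T p r) (j : Fin k), i ≠ j →
      (nbrs (Gr k p r) Prod.fst (i, x) j : ℝ) = (p : ℝ) / qq k p r * deg (Gr k p r) (i, x) := by
    intro i x j hij
    rw [nbrs_eq]
    rcases x with x | x | x | x | ⟨x1, x2, x3⟩
    · have := deg_A (k := k) i x
      unfold tA at this
      rw [this]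
      have := W_A (ind (Prod.fst : Fin k × T p r → Fin k) j) i x
      unfold tA at this
      rw [this]
      simp only [hind, hij, if_false]
      simp
      field_simp
    · have := deg_B (k := k) i x
      unfold tB at this
      rw [this]
      have := W_B (ind (Prod.fst : Fin k × T p r → Fin k) j) i x
      unfold tB at this
      rw [this]
      simp only [hind, hij, if_false]
      simp
      field_simp
    · have := deg_C (k := k) i x
      unfold tC at this
      rw [this]
      have := W_C (ind (Prod.fst : Fin k × T p r → Fin k) j) i x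
      unfold tC at this
      rw [this]
      simp only [hind, hij, if_false]
      simp
      field_simp
    · have := deg_D (k := k) i x
      unfold tD at this
      rw [this]
      have := W_D (ind (Prod.fst : Fin k × T p r → Fin k) j) i x.1 x.2
      unfold tD at this
      rw [this]
      simp only [hind, hij, if_false]
      simp
      field_simp
    · have := deg_E (k := k) i (x1, x2, x3)
      unfold tE at this
      rw [this]
      have := W_E (ind (Prod.fst : Fin k × T p r → Fin k) j) i x1 x2 x3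
      unfold tE at this
      rw [this]
      simp only [hind, hij, if_false]
      simp
      field_simp
  refine ⟨fun x => ⟨(x, tB b0), rfl⟩, by positivity, ?_, fun v i h => hother v.1 v.2 i h, ?_⟩
  · rw [div_le_one hq]
    unfold qq
    nlinarith
  · rintro ⟨i, x⟩
    have h1 : (1 - ((k : ℝ) - 1) * ((p : ℝ) / qq k p r)) = r / qq k p r := by
      field_simp
      unfold qq
      ring
    rw [h1, nbrs_eq]
    rcases x with x | x | x | x | ⟨x1, x2, x3⟩
    · have := deg_A (k := k) i x
      unfold tA at this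
      rw [this]
      have := W_A (ind (Prod.fst : Fin k × T p r → Fin k) i) i x
      unfold tA at this
      rw [this]
      simp only [hind]
      simp
      field_simp
    · have := deg_B (k := k) i x
      unfold tB at this
      rw [this]
      have := W_B (ind (Prod.fst : Fin k × T p r → Fin k) i) i x
      unfold tB at this
      rw [this]
      simp only [hind]
      simp
      field_simp
    · have := deg_C (k := k) i x
      unfold tC at this
      rw [this]
      have := W_C (ind (Prod.fst : Fin k × T p r → Fin k) i) i x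
      unfold tC at this
      rw [this]
      simp only [hind]
      simp
      field_simp
    · have := deg_D (k := k) i x
      unfold tD at this
      rw [this]
      have := W_D (ind (Prod.fst : Fin k × T p r → Fin k) i) i x.1 x.2
      unfold tD at this
      rw [this]
      simp only [hind]
      simp
      field_simp
    · have := deg_E (k := k) i (x1, x2, x3)
      unfold tE at this
      rw [this]
      have := W_E (ind (Prod.fst : Fin k × T p r → Fin k) i) i x1 x2 x3
      unfold tE at this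
      rw [this]
      simp only [hind]
      simp
      field_simp

/-! ### The upper bound -/

lemma twin {V : Type} [Fintype V] {G : SimpleGraph V} {m : ℕ} {a : ℝ} {c : V → Fin m}
    (h : IsFAT G m a c) (ha : 1 - ((m : ℝ) - 1) * a ≠ a) {v w : V} (hd : (deg G v : ℝ) ≠ 0)
    (hvw : ∀ f, W G f v = W G f w) : c v = c w := by
  by_contra hne
  have h1 := h.own v
  have h2 := h.other w (c v) (fun h' => hne h'.symm)
  rw [nbrs_eq, hvw, ← nbrs_eq, h2, deg_eq, ← hvw, ← deg_eq] at h1
  exact ha (mul_right_cancel₀ hd h1).symm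

lemma pos_data (hk : 2 ≤ k) (hp : 0 < p) (hr : 0 < r) :
    (0 : ℝ) < p ∧ (0 : ℝ) < r ∧ (0 : ℝ) < (k : ℝ) - 1 ∧ 0 < qq k p r := by
  have hk1 : (0 : ℝ) < (k : ℝ) - 1 := by
    have : (2 : ℝ) ≤ k := by exact_mod_cast hk
    linarith
  have hp0 : (0 : ℝ) < p := by exact_mod_cast hp
  have hr0 : (0 : ℝ) < r := by exact_mod_cast hr
  refine ⟨hp0, hr0, hk1, ?_⟩
  unfold qq
  positivity

/-- the first case -/
lemma case_one (hk : 2 ≤ k) (hp : 0 < p) (hr : 0 < r) (hpr : p ≠ r) {m : ℕ} (hm : k < m) {a : ℝ}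
    {c : Fin k × T p r → Fin m} (h : IsFAT (Gr k p r) m a c) (ha : 1 - ((m : ℝ) - 1) * a ≠ a) :
    False := by
  classical
  obtain ⟨hp0, hr0, hk1, hq⟩ := pos_data (k := k) hk hp hr
  have hpos := pos_of_conn (Gr_conn hk hp hr) (by omega : 2 ≤ m) h
  have a0 : Fin (2 * p ^ 4 * r ^ 4) := ⟨0, by positivity⟩
  have b0 : Fin (p ^ 2 * r) := ⟨0, by positivity⟩
  have c0 : Fin (p * r ^ 2) := ⟨0, by positivity⟩
  have hB : ∀ (i : Fin k) (b b' : Fin (p ^ 2 * r)), c (i, tB b) = c (i, tB b') := by
    intro i b b'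
    refine twin h ha ?_ fun f => ?_
    · rw [deg_B]
      positivity
    · rw [W_B, W_B]
  have hC : ∀ (i : Fin k) (b b' : Fin (p * r ^ 2)), c (i, tC b) = c (i, tC b') := by
    intro i b b'
    refine twin h ha ?_ fun f => ?_
    · rw [deg_C]
      positivity
    · rw [W_C, W_C]
  set z : Fin k := ⟨0, by omega⟩ with hz
  set o : Fin k := ⟨1, by omega⟩ with ho
  have hzo : o ≠ z := by
    intro h
    have := congrArg Fin.val h
    simp [hz, ho] at this
  set v : Fin k × T p r := (z, tA a0) with hv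
  have hdeg : (deg (Gr k p r) v : ℝ) = p * r * qq k p r := deg_A _ _
  have hdpos : 0 < a * (deg (Gr k p r) v : ℝ) := by
    rw [hdeg]
    positivity
  set ψ : Fin k → Fin m := fun j => if j = z then c (z, tC c0) else c (j, tB b0) with hψ
  have hψz : ψ z = c (z, tC c0) := by simp [hψ]
  have hψj : ∀ j, j ≠ z → ψ j = c (j, tB b0) := by
    intro j hj
    simp [hψ, hj]
  have h1 : (Finset.univ.erase (c v)) ⊆ Finset.univ.image ψ := by
    intro γ hγ
    rw [Finset.mem_erase] at hγ
    have h2 := h.other v γ (Ne.symm hγ.1)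
    obtain ⟨⟨j, x⟩, hw1, hw2⟩ := exists_of_nbrs_pos (G := Gr k p r) (c := c) (v := v) (i := γ)
      (by rw [h2]; exact hdpos)
    rw [Finset.mem_image]
    rcases hw1 with ⟨h3, h4⟩ | ⟨h3, h4⟩
    · rcases x with x | x | x | x | x <;> try exact h4.elim
      refine ⟨j, Finset.mem_univ _, ?_⟩
      rw [hψj j (Ne.symm h3), ← hw2]
      exact hB _ _ _
    · rcases x with x | x | x | x | x <;> try exact h4.elim
      refine ⟨z, Finset.mem_univ _, ?_⟩
      have h5 : z = j := h3
      subst h5
      rw [hψz, ← hw2]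
      exact hC _ _ _
  have h2 := Finset.card_le_card h1
  rw [Finset.card_erase_of_mem (Finset.mem_univ _), Finset.card_univ, Fintype.card_fin] at h2
  have h3 : (Finset.univ.image ψ).card ≤ k := by
    refine Finset.card_image_le.trans ?_
    simp
  have h4 : (Finset.univ.image ψ).card = (Finset.univ : Finset (Fin k)).card := by
    simp only [Finset.card_univ, Fintype.card_fin]
    omega
  have h5 := Finset.card_image_iff.mp h4
  have hinj : Function.Injective ψ := fun x y hxy => h5 (Finset.mem_coe.mpr (Finset.mem_univ _))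
    (Finset.mem_coe.mpr (Finset.mem_univ _)) hxy
  have hne : ∀ j, c v ≠ ψ j := by
    intro j hj
    have h6 : Finset.univ.image ψ = Finset.univ.erase (c v) := by
      symm
      apply Finset.eq_of_subset_of_card_le h1
      rw [Finset.card_erase_of_mem (Finset.mem_univ _), Finset.card_univ, Fintype.card_fin]
      omega
    have h7 : ψ j ∈ Finset.univ.erase (c v) := by
      rw [← h6]
      exact Finset.mem_image.mpr ⟨j, Finset.mem_univ _, rfl⟩
    rw [← hj] at h7
    simp at h7
  -- the number of neighbours of a given colour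
  have hW : ∀ i : Fin k, (nbrs (Gr k p r) c v (ψ i) : ℝ) =
      (if i = z then ((p * r ^ 2 : ℕ) : ℝ) else ((p ^ 2 * r : ℕ) : ℝ)) := by
    intro i
    rw [nbrs_eq, hv, W_A]
    have e1 : ∀ j, j ≠ z → (∑ y, ind c (ψ i) (j, tB y)) =
        if j = i then ((p ^ 2 * r : ℕ) : ℝ) else 0 := by
      intro j hj
      have e2 : ∀ y, ind c (ψ i) (j, tB y) = if j = i then (1 : ℝ) else 0 := by
        intro y
        unfold ind
        rw [hB j y b0, ← hψj j hj]
        by_cases hji : j = i
        · simp [hji]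
        · have : ψ j ≠ ψ i := fun h' => hji (hinj h')
          simp [hji, this]
      rw [Finset.sum_congr rfl (fun y _ => e2 y)]
      by_cases hji : j = i <;> simp [hji]
    have e3 : (∑ y, ind c (ψ i) (z, tC y)) = if i = z then ((p * r ^ 2 : ℕ) : ℝ) else 0 := by
      have e2 : ∀ y, ind c (ψ i) (z, tC y) = if i = z then (1 : ℝ) else 0 := by
        intro y
        unfold ind
        rw [hC z y c0, ← hψz]
        by_cases hji : i = z
        · simp [hji]
        · have : ψ z ≠ ψ i := fun h' => hji (hinj h').symm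
          simp [hji, this]
      rw [Finset.sum_congr rfl (fun y _ => e2 y)]
      by_cases hji : i = z <;> simp [hji]
    have e4 : (∑ j, ∑ y, ind c (ψ i) (j, tB y)) - (∑ y, ind c (ψ i) (z, tB y)) =
        if i = z then 0 else ((p ^ 2 * r : ℕ) : ℝ) := by
      rw [← Finset.add_sum_erase Finset.univ _ (Finset.mem_univ z), add_sub_cancel_left]
      rw [Finset.sum_congr rfl (fun j hj => e1 j (Finset.ne_of_mem_erase hj))]
      rw [Finset.sum_ite_eq']
      simp
    rw [e4, e3]
    by_cases hiz : i = z <;> simp [hiz]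
  have h6 := h.other v (ψ z) (hne z)
  have h7 := h.other v (ψ o) (hne o)
  rw [hW] at h6 h7
  rw [if_pos rfl] at h6
  rw [if_neg hzo] at h7
  rw [← h7] at h6
  have h8 : p * r ^ 2 = p ^ 2 * r := by exact_mod_cast h6
  have h9 : (p * r) * r = (p * r) * p := by
    rw [show (p * r) * r = p * r ^ 2 by ring, h8]
    ring
  exact hpr (Nat.eq_of_mul_eq_mul_left (by positivity) h9).symm

/-- the second case -/
lemma case_two (hk : 2 ≤ k) (hp : 0 < p) (hr : 0 < r) (hpr : p ≠ r) (hco : Nat.Coprime p r)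
    {m : ℕ} (hm : k < m) {a : ℝ} {c : Fin k × T p r → Fin m} (h : IsFAT (Gr k p r) m a c)
    (ha : 1 - ((m : ℝ) - 1) * a = a) : False := by
  classical
  obtain ⟨hp0, hr0, hk1, hq⟩ := pos_data (k := k) hk hp hr
  have hm0 : (0 : ℝ) < m := by exact_mod_cast (by omega : 0 < m)
  have hma : (m : ℝ) * a = 1 := by linarith
  have b0 : Fin (p ^ 2 * r) := ⟨0, by positivity⟩
  have d0 : Fin (2 * r ^ 5) × Fin (p ^ 3) := (⟨0, by positivity⟩, ⟨0, by positivity⟩)
  have e0 : Fin (p ^ 5) × Bool × Fin (r ^ 3) := (⟨0, by positivity⟩, true, ⟨0, by positivity⟩)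
  set z : Fin k := ⟨0, by omega⟩ with hz
  set γ : Fin m := ⟨0, by omega⟩ with hγ
  have hall : ∀ v, (m : ℝ) * nbrs (Gr k p r) c v γ = deg (Gr k p r) v := by
    intro v
    have h1 : (nbrs (Gr k p r) c v γ : ℝ) = a * deg (Gr k p r) v := by
      by_cases h2 : c v = γ
      · have h3 := h.own v
        rw [ha, h2] at h3
        exact h3
      · exact h.other v γ h2
    rw [h1, ← mul_assoc, hma, one_mul]
  set f : Fin k × T p r → ℝ := fun w => ind c γ w - a with hf
  have hWf : ∀ v, W (Gr k p r) f v = 0 := by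
    intro v
    have h1 : W (Gr k p r) f v = W (Gr k p r) (ind c γ) v - a * W (Gr k p r) (fun _ => 1) v := by
      unfold W
      rw [Finset.mul_sum, ← Finset.sum_sub_distrib]
      refine Finset.sum_congr rfl fun w _ => ?_
      by_cases hw : (Gr k p r).Adj v w
      · simp [hf, hw]
      · simp [hw]
    rw [h1, ← nbrs_eq, ← deg_eq, ← hall v, ← mul_assoc, mul_comm a, hma]
    ring
  set yA : Fin k → ℝ := fun i => ∑ x, f (i, tA x) with hyA
  set yB : Fin k → ℝ := fun i => ∑ x, f (i, tB x) with hyB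
  set yC : Fin k → ℝ := fun i => ∑ x, f (i, tC x) with hyC
  set yD : Fin k → ℝ := fun i => ∑ x, f (i, tD x) with hyD
  set yE : Fin k → ℝ := fun i => ∑ x, f (i, tE x) with hyE
  have a0 : Fin (2 * p ^ 4 * r ^ 4) := ⟨0, by positivity⟩
  have c0 : Fin (p * r ^ 2) := ⟨0, by positivity⟩
  have qA : ∀ i, (∑ j, yB j) - yB i + yC i = 0 := by
    intro i
    have h1 := hWf (i, tA a0)
    rw [W_A] at h1
    exact h1
  have qB : ∀ i, (∑ j, yA j) - yA i + yD i = 0 := by
    intro i
    have h1 := hWf (i, tB b0)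
    rw [W_B] at h1
    exact h1
  have qC : ∀ i, (∑ j, yE j) - yE i + yA i = 0 := by
    intro i
    have h1 := hWf (i, tC c0)
    rw [W_C] at h1
    exact h1
  have qD : ∀ i, (∑ j, yD j) - yD i + 2 * (r : ℝ) ^ 5 * yB i = 0 := by
    intro i
    have h1 : ∑ l : Fin (2 * r ^ 5), W (Gr k p r) f (i, tD (l, d0.2)) = 0 :=
      Finset.sum_eq_zero fun l _ => hWf _
    simp only [W_D, Finset.sum_add_distrib, Finset.sum_sub_distrib] at h1
    rw [Finset.sum_comm, Finset.sum_const, Finset.card_univ, Fintype.card_fin, nsmul_eq_mul] at h1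
    simp only [hyD, hyB, Fintype.sum_prod_type]
    push_cast at h1
    exact h1
  have qE : ∀ i, 2 * (p : ℝ) ^ 5 * ((∑ j, yC j) - yC i) + yE i = 0 := by
    intro i
    have h1 : ∑ l : Fin (p ^ 5), ∑ b : Bool, W (Gr k p r) f (i, tE (l, b, e0.2.2)) = 0 :=
      Finset.sum_eq_zero fun l _ => Finset.sum_eq_zero fun b _ => hWf _
    simp only [W_E, Fintype.sum_bool, Finset.sum_add_distrib, Finset.sum_sub_distrib,
      Finset.sum_const, Finset.card_univ, Fintype.card_fin, nsmul_eq_mul, Bool.not_true,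
      Bool.not_false, Fintype.card_bool] at h1
    simp only [hyC, hyE, Fintype.sum_prod_type, Fintype.sum_bool, Finset.sum_add_distrib]
    push_cast at h1
    linarith
  -- the sums
  have sA : ((k : ℝ) - 1) * (∑ j, yB j) + ∑ j, yC j = 0 := by
    have h1 : ∑ i, ((∑ j, yB j) - yB i + yC i) = 0 := Finset.sum_eq_zero fun i _ => qA i
    rw [Finset.sum_add_distrib, Finset.sum_sub_distrib, Finset.sum_const, Finset.card_univ,
      Fintype.card_fin, nsmul_eq_mul] at h1
    linarith
  have sB : ((k : ℝ) - 1) * (∑ j, yA j) + ∑ j, yD j = 0 := by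
    have h1 : ∑ i, ((∑ j, yA j) - yA i + yD i) = 0 := Finset.sum_eq_zero fun i _ => qB i
    rw [Finset.sum_add_distrib, Finset.sum_sub_distrib, Finset.sum_const, Finset.card_univ,
      Fintype.card_fin, nsmul_eq_mul] at h1
    linarith
  have sC : ((k : ℝ) - 1) * (∑ j, yE j) + ∑ j, yA j = 0 := by
    have h1 : ∑ i, ((∑ j, yE j) - yE i + yA i) = 0 := Finset.sum_eq_zero fun i _ => qC i
    rw [Finset.sum_add_distrib, Finset.sum_sub_distrib, Finset.sum_const, Finset.card_univ,
      Fintype.card_fin, nsmul_eq_mul] at h1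
    linarith
  have sD : ((k : ℝ) - 1) * (∑ j, yD j) + 2 * (r : ℝ) ^ 5 * ∑ j, yB j = 0 := by
    have h1 : ∑ i, ((∑ j, yD j) - yD i + 2 * (r : ℝ) ^ 5 * yB i) = 0 :=
      Finset.sum_eq_zero fun i _ => qD i
    rw [Finset.sum_add_distrib, Finset.sum_sub_distrib, Finset.sum_const, Finset.card_univ,
      Fintype.card_fin, nsmul_eq_mul, ← Finset.mul_sum] at h1
    linarith
  have sE : 2 * (p : ℝ) ^ 5 * (((k : ℝ) - 1) * (∑ j, yC j)) + ∑ j, yE j = 0 := by
    have h1 : ∑ i, (2 * (p : ℝ) ^ 5 * ((∑ j, yC j) - yC i) + yE i) = 0 :=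
      Finset.sum_eq_zero fun i _ => qE i
    rw [Finset.sum_add_distrib, ← Finset.mul_sum, Finset.sum_sub_distrib, Finset.sum_const,
      Finset.card_univ, Fintype.card_fin, nsmul_eq_mul] at h1
    linarith
  set κ : ℝ := (k : ℝ) - 1 with hκ
  have zB : (∑ j, yB j) = 0 := by
    have e1 : (∑ j, yC j) = -κ * ∑ j, yB j := by linarith
    have e2 : (∑ j, yE j) = 2 * (p : ℝ) ^ 5 * κ ^ 2 * ∑ j, yB j := by
      have : (∑ j, yE j) = -(2 * (p : ℝ) ^ 5 * (κ * ∑ j, yC j)) := by linarith
      rw [this, e1]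
      ring
    have e3 : (∑ j, yA j) = -κ * (2 * (p : ℝ) ^ 5 * κ ^ 2 * ∑ j, yB j) := by
      rw [← e2]
      linarith
    have e4 : (∑ j, yD j) = -κ * (-κ * (2 * (p : ℝ) ^ 5 * κ ^ 2 * ∑ j, yB j)) := by
      rw [← e3]
      linarith
    rw [e4] at sD
    have e5 : (2 * (p : ℝ) ^ 5 * κ ^ 5 + 2 * (r : ℝ) ^ 5) * ∑ j, yB j = 0 := by
      linarith
    rcases mul_eq_zero.mp e5 with e6 | e6
    · exfalso
      have : 0 < 2 * (p : ℝ) ^ 5 * κ ^ 5 + 2 * (r : ℝ) ^ 5 := by positivity
      linarith
    · exact e6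
  have zC : (∑ j, yC j) = 0 := by
    rw [zB] at sA
    linarith
  have zE : (∑ j, yE j) = 0 := by
    rw [zC] at sE
    linarith
  have zA : (∑ j, yA j) = 0 := by
    rw [zE] at sC
    linarith
  have zD : (∑ j, yD j) = 0 := by
    rw [zA] at sB
    linarith
  have hyBz : yB z = 0 := by
    have e1 := qA z
    have e2 := qB z
    have e3 := qC z
    have e4 := qD z
    have e5 := qE z
    rw [zB] at e1
    rw [zA] at e2
    rw [zE] at e3
    rw [zD] at e4
    rw [zC] at e5
    have e6 : yC z = yB z := by linarith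
    have e7 : yD z = yA z := by linarith
    have e8 : yA z = yE z := by linarith
    have e9 : yE z = 2 * (p : ℝ) ^ 5 * yB z := by
      rw [e6] at e5
      linarith
    have e10 : (2 * (r : ℝ) ^ 5 - 2 * (p : ℝ) ^ 5) * yB z = 0 := by
      rw [e7, e8, e9] at e4
      linarith
    rcases mul_eq_zero.mp e10 with e11 | e11
    · exfalso
      have e12 : (r : ℝ) ^ 5 = (p : ℝ) ^ 5 := by linarith
      have e13 : r ^ 5 = p ^ 5 := by exact_mod_cast e12
      exact hpr (Nat.pow_left_injective (by norm_num : (5 : ℕ) ≠ 0) e13).symm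
    · exact e11
  -- divisibility
  have d1 : m ∣ p ^ 2 * r := by
    have e1 : (∑ x, ind c γ (z, tB x)) = ((p ^ 2 * r : ℕ) : ℝ) * a := by
      have e2 : (∑ x, (ind c γ (z, tB x) - a)) = 0 := hyBz
      rw [Finset.sum_sub_distrib, Finset.sum_const, Finset.card_univ, Fintype.card_fin,
        nsmul_eq_mul] at e2
      linarith
    have e3 : (∑ x, ind c γ (z, tB x)) =
        ((Finset.univ.filter (fun x => c (z, tB x) = γ)).card : ℝ) := by
      unfold ind
      rw [Finset.sum_boole]
    rw [e3] at e1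
    refine ⟨(Finset.univ.filter (fun x => c (z, tB x) = γ)).card, ?_⟩
    have e4 : (m : ℝ) * ((Finset.univ.filter (fun x => c (z, tB x) = γ)).card : ℝ) =
        ((p ^ 2 * r : ℕ) : ℝ) := by
      rw [e1]
      linear_combination ((p ^ 2 * r : ℕ) : ℝ) * hma
    exact_mod_cast e4.symm
  obtain ⟨κ', hκ'⟩ : ∃ κ' : ℕ, k = κ' + 1 := ⟨k - 1, by omega⟩
  have hqn : qq k p r = ((r + κ' * p : ℕ) : ℝ) := by
    unfold qq
    rw [hκ']
    push_cast
    ring
  have d2 : m ∣ p ^ 2 * (r + κ' * p) := by
    have e1 := hall (z, tD d0)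
    rw [deg_D, hqn] at e1
    exact ⟨_, by exact_mod_cast e1.symm⟩
  have d3 : m ∣ r ^ 2 * (r + κ' * p) := by
    have e1 := hall (z, tE e0)
    rw [deg_E, hqn] at e1
    exact ⟨_, by exact_mod_cast e1.symm⟩
  have d4 : m ∣ r + κ' * p := by
    have e1 : Nat.gcd (p ^ 2 * (r + κ' * p)) (r ^ 2 * (r + κ' * p)) = r + κ' * p := by
      rw [Nat.gcd_mul_right, Nat.Coprime.pow 2 2 hco, one_mul]
    rw [← e1]
    exact Nat.dvd_gcd d2 d3
  have hcop : Nat.Coprime m p := by
    have e1 : Nat.Coprime (r + κ' * p) p := by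
      rw [Nat.coprime_add_mul_right_left]
      exact hco.symm
    exact Nat.Coprime.coprime_dvd_left d4 e1
  have d5 : m ∣ r := (Nat.Coprime.pow_right 2 hcop).dvd_of_dvd_mul_left d1
  have d6 : m ∣ κ' * p := (Nat.dvd_add_right d5).mp d4
  have d7 : m ∣ κ' := hcop.dvd_of_dvd_mul_right d6
  have d8 := Nat.le_of_dvd (by omega) d7
  omega

lemma general_case (hk : 2 ≤ k) (hp : 0 < p) (hr : 0 < r) (hpr : p ≠ r) (hco : Nat.Coprime p r) :
    (Gr k p r).Connected ∧ IsChiFAT (Gr k p r) k ∧
      IsFAT (Gr k p r) k ((p : ℝ) / qq k p r) Prod.fst := by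
  refine ⟨Gr_conn hk hp hr, ⟨⟨_, _, fat_Gr hk hp hr⟩, ?_⟩, fat_Gr hk hp hr⟩
  rintro m ⟨a, c, hc⟩
  by_contra hlt
  push Not at hlt
  by_cases ha : 1 - ((m : ℝ) - 1) * a = a
  · exact case_two hk hp hr hpr hco hlt hc ha
  · exact case_one hk hp hr hpr hlt hc ha

end general

/-- **Main theorem.** For every integer `k ≥ 2` and every rational number `α` with
`0 < α ≤ 1 / (k - 1)` there is a finite connected simple graph `G` with at least two vertices whose FAT
chromatic number is exactly `k` and which admits a FAT `k`-coloring with parameter `α`. -/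
theorem result (k : ℕ) (hk : 2 ≤ k) (α : ℚ) (h0 : 0 < α) (h1 : α ≤ 1 / ((k : ℚ) - 1)) :
    ∃ (V : Type) (_ : Finite V) (G : SimpleGraph V), Nontrivial V ∧ G.Connected ∧
      IsChiFAT G k ∧ ∃ c : V → Fin k, IsFAT G k (α : ℝ) c := by
  obtain ⟨κ, rfl⟩ : ∃ κ : ℕ, k = κ + 1 := ⟨k - 1, by omega⟩
  have hκ : 1 ≤ κ := by omega
  have hκ0 : (0 : ℚ) < κ := by exact_mod_cast hκ
  have hκR : (0 : ℝ) < κ := by exact_mod_cast hκ
  have hnontriv : Nontrivial (Fin (κ + 1)) := Fin.nontrivial_iff_two_le.mpr hk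
  obtain ⟨p, hp⟩ : ∃ p : ℕ, α.num = p := Int.eq_ofNat_of_zero_le (Rat.num_pos.mpr h0).le
  have hp0 : 0 < p := by
    have := Rat.num_pos.mpr h0
    omega
  have hq0 := α.den_pos
  have hαeq : α = (p : ℚ) / (α.den : ℚ) := by
    conv_lhs => rw [← Rat.num_div_den α]
    rw [hp]
    simp
  have hcop : Nat.Coprime p α.den := by
    have := α.reduced
    rw [hp] at this
    simpa using this
  have hle : κ * p ≤ α.den := by
    have h2 : (p : ℚ) / (α.den : ℚ) ≤ 1 / (κ : ℚ) := by
      rw [← hαeq]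
      push_cast at h1
      simpa using h1
    rw [div_le_div_iff₀ (by exact_mod_cast hq0) hκ0] at h2
    have h3 : (p : ℚ) * κ ≤ α.den := by linarith
    have h4 : p * κ ≤ α.den := by exact_mod_cast h3
    linarith [mul_comm p κ]
  obtain ⟨r, hr⟩ := Nat.exists_eq_add_of_le hle
  have hαR : (α : ℝ) = (p : ℝ) / ((κ * p + r : ℕ) : ℝ) := by
    rw [← hr]
    conv_lhs => rw [hαeq]
    push_cast
    rfl
  have hcop' : Nat.Coprime p r := by
    rw [hr, mul_comm κ p] at hcop
    rwa [Nat.coprime_mul_left_add_right] at hcop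
  rcases Nat.eq_zero_or_pos r with hr0 | hr0
  · -- the complete graph
    have hp1 : p = 1 := by
      rw [hr0] at hcop'
      simpa using hcop'
    obtain ⟨g1, g2, g3⟩ := complete (κ + 1) hk
    refine ⟨Fin (κ + 1), inferInstance, ⊤, hnontriv, g1, g2, id, ?_⟩
    have e1 : (α : ℝ) = 1 / (((κ + 1 : ℕ) : ℝ) - 1) := by
      rw [hαR, hr0, hp1]
      push_cast
      simp
    rw [e1]
    exact g3
  · by_cases hpr : p = r
    · -- the complete bipartite graph
      have hp1 : p = 1 := by
        rw [← hpr] at hcop'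
        simpa using hcop'
      obtain ⟨g1, g2, g3⟩ := bipartite (κ + 1) hk
      refine ⟨Fin (κ + 1) × Bool, inferInstance, Kb (κ + 1), inferInstance, g1, g2, Prod.fst, ?_⟩
      have e1 : (α : ℝ) = 1 / ((κ + 1 : ℕ) : ℝ) := by
        rw [hαR, ← hpr, hp1]
        push_cast
        simp
      rw [e1]
      exact g3
    · obtain ⟨g1, g2, g3⟩ := general_case (k := κ + 1) hk hp0 hr0 hpr hcop'
      have hne : Nonempty (T p r) := ⟨tB ⟨0, by positivity⟩⟩
      refine ⟨Fin (κ + 1) × T p r, inferInstance, Gr (κ + 1) p r, inferInstance, g1, g2,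
        Prod.fst, ?_⟩
      have e1 : (α : ℝ) = (p : ℝ) / qq (κ + 1) p r := by
        rw [hαR]
        unfold qq
        push_cast
        congr 1
        ring
      rw [e1]
      exact g3

end Pool.Agent.Results.MP_2d49c6_co.PrescribedParameter
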